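import Mathlib
import Pool.Agent.X3.NfaTqk
import Pool.Agent.X3.NfaComp

/-!
# Automatic complexity of the trajectories of the maps `T_{q,k}`

The parity word of a trajectory without repetitions (so of an unbounded or divergent trajectory) of
`T_{q,k}`, in particular of the 3x+1 map `T_{3,1}`, has nearly maximal automatic complexity.
-/

set_option autoImplicit false

open Filter

namespace Pool.Agent.Results.MP_ff4775_nt.AutomaticComplexity

/-- The map `T_{q,k}` on the integers: `(q x + k) / 2` for odd `x`, `x / 2` for even `x`. -/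
def T (q k x : ℤ) : ℤ := if x % 2 = 0 then x / 2 else (q * x + k) / 2

/-- The parity of the `i`-th iterate of `x`. -/
def parity (q k x : ℤ) (i : ℕ) : ZMod 2 := (((T q k)^[i] x : ℤ) : ZMod 2)

/-- The word formed by the parities of `x, T x, …, T^(N-1) x`. -/
def parityWord (q k x : ℤ) (N : ℕ) : List (ZMod 2) := (List.range N).map (parity q k x)

/-- The automatic complexity of a word: the least number of states of a nondeterministic finite
automaton that accepts `w` and no other word of the same length. -/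
noncomputable def complexity (w : List (ZMod 2)) : ℕ :=
  sInf {q : ℕ | ∃ M : NFA (ZMod 2) (Fin q),
    ∀ v : List (ZMod 2), v.length = w.length → (v ∈ M.accepts ↔ v = w)}

/-- The number of words of length `N` accepted by the automaton. -/
noncomputable def numAccepted {s : ℕ} (M : NFA (ZMod 2) (Fin s)) (N : ℕ) : ℕ :=
  {w : List (ZMod 2) | w ∈ M.accepts ∧ w.length = N}.ncard

/-- The number of the `i < N` with `w i ≠ parity q k x i`. -/
def numErrors (q k x : ℤ) (N : ℕ) (w : ℕ → ZMod 2) : ℕ :=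
  ((Finset.range N).filter fun i => w i ≠ parity q k x i).card

/-- Up to at most `c log N` errors the parity word of `x` of length `N` is accepted by a
nondeterministic finite automaton that has at most `N ^ (1 - δ)` states and accepts fewer than
`exp (c (log N) ^ 2)` words of length `N`. -/
def Simple (q k : ℤ) (c δ : ℝ) (x : ℤ) (N : ℕ) : Prop :=
  ∃ (s : ℕ) (M : NFA (ZMod 2) (Fin s)) (w : ℕ → ZMod 2), (s : ℝ) ≤ (N : ℝ) ^ (1 - δ) ∧
    (List.range N).map w ∈ M.accepts ∧ (numErrors q k x N w : ℝ) ≤ c * Real.log N ∧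
    (numAccepted M N : ℝ) < Real.exp (c * Real.log N ^ 2)

/-- `x, T x, …, T^(N-1) x` are different. -/
def Distinct (q k x : ℤ) (N : ℕ) : Prop := ∀ i j, i < j → j < N → (T q k)^[i] x ≠ (T q k)^[j] x

theorem comp_eq (w : List (ZMod 2)) : complexity w = Pool.Agent.X3.NfaComp.comp w := rfl

theorem len (q k x : ℤ) (N : ℕ) : (parityWord q k x N).length = N := by simp [parityWord]

/-- Let `q ≥ 3` be odd.

(1) There is `C` such that for all odd `k`, all integers `x` and all `N` such that
`x, T x, …, T^(N-1) x` are different, the parity word of `x` of length `N` has automatic complexity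
at least `N / log (|x| + |k| + 2) * exp (-C √(log N))` (and at most `N + 1`).

(2) For every `δ ∈ (0, 1]` there are `c > 0` and `N₁` such that for all odd `k`, all `N ≥ N₁` and all
`x` such that `x, T x, …, T^(N-1) x` are different and `log (|x| + |k| + 2) ≤ √N`: every
nondeterministic finite automaton with at most `N ^ (1 - δ)` states which accepts a word of length
`N` that differs from the parity word of `x` in at most `c log N` places accepts at least
`exp (c (log N) ^ 2)` words of length `N`.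

(3) For every `δ ∈ (0, 1]` there is `c > 0` such that, for all odd `k` and all `x`: if the parity
words of `x` of length `N` are simple with the parameters `c`, `δ` for arbitrarily large `N`, then
the trajectory of `x` is eventually periodic; in particular it is not divergent. -/
theorem result (q : ℤ) (hq : q % 2 = 1) (hq3 : 3 ≤ q) :
    (∃ C : ℝ, ∀ k : ℤ, k % 2 = 1 → ∀ (x : ℤ) (N : ℕ), Distinct q k x N →
      (N : ℝ) / Real.log (|(x : ℝ)| + |(k : ℝ)| + 2) *
        Real.exp (-(C * Real.sqrt (Real.log N))) ≤ complexity (parityWord q k x N) ∧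
      complexity (parityWord q k x N) ≤ N + 1) ∧
    (∀ δ : ℝ, 0 < δ → δ ≤ 1 → ∃ c : ℝ, 0 < c ∧ ∃ N₁ : ℕ, ∀ k : ℤ, k % 2 = 1 →
      ∀ (x : ℤ) (N : ℕ), N₁ ≤ N → Distinct q k x N →
      Real.log (|(x : ℝ)| + |(k : ℝ)| + 2) ≤ Real.sqrt N →
      ∀ (s : ℕ) (M : NFA (ZMod 2) (Fin s)), (s : ℝ) ≤ (N : ℝ) ^ (1 - δ) →
      ∀ w : ℕ → ZMod 2, (numErrors q k x N w : ℝ) ≤ c * Real.log N →
        (List.range N).map w ∈ M.accepts → Real.exp (c * Real.log N ^ 2) ≤ numAccepted M N) ∧
    (∀ δ : ℝ, 0 < δ → δ ≤ 1 → ∃ c : ℝ, 0 < c ∧ ∀ k : ℤ, k % 2 = 1 → ∀ x : ℤ,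
      (∃ᶠ N : ℕ in atTop, Simple q k c δ x N) →
      (∃ i j, i < j ∧ (T q k)^[i] x = (T q k)^[j] x) ∧
      ¬ Tendsto (fun i => |(T q k)^[i] x|) atTop atTop) := by
  have hwords : ∀ δ : ℝ, 0 < δ → δ ≤ 1 → ∃ c : ℝ, 0 < c ∧ ∃ N₁ : ℕ, ∀ k : ℤ, k % 2 = 1 →
      ∀ (x : ℤ) (N : ℕ), N₁ ≤ N → Distinct q k x N →
      Real.log (|(x : ℝ)| + |(k : ℝ)| + 2) ≤ Real.sqrt N →
      ∀ (s : ℕ) (M : NFA (ZMod 2) (Fin s)), (s : ℝ) ≤ (N : ℝ) ^ (1 - δ) →
      ∀ w : ℕ → ZMod 2, (numErrors q k x N w : ℝ) ≤ c * Real.log N →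
        (List.range N).map w ∈ M.accepts → Real.exp (c * Real.log N ^ 2) ≤ numAccepted M N := by
    intro δ hδ hδ1
    obtain ⟨c, hc, N₁, h⟩ := Pool.Agent.X3.NfaTqk.orbit_words hq hq3 δ hδ hδ1
    refine ⟨c, hc, N₁, fun k hk x N hN hx hxN s M hs w hw hacc => ?_⟩
    exact h k hk x N hN hx (by rwa [← Real.sqrt_eq_rpow]) (Fin s) M
      (by rw [Fintype.card_fin]; exact hs) w hw hacc
  refine ⟨?_, hwords, ?_⟩
  · obtain ⟨C, hC, h⟩ := Pool.Agent.X3.NfaTqk.orbit_states hq hq3
    refine ⟨C, fun k hk x N hx => ⟨?_, ?_⟩⟩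
    · obtain ⟨M, hM⟩ := Pool.Agent.X3.NfaComp.comp_spec (parityWord q k x N)
      rw [len] at hM
      have h1 := h k hk x N hx _ M ((hM _ (len q k x N)).2 rfl) (fun v hv hvN => (hM v hvN).1 hv)
      rwa [Fintype.card_fin, ← comp_eq] at h1
    · have := Pool.Agent.X3.NfaComp.comp_le (parityWord q k x N)
      rwa [len] at this
  · intro δ hδ hδ1
    obtain ⟨c, hc, N₁, h⟩ := hwords δ hδ hδ1
    refine ⟨c, hc, fun k hk x hx => ?_⟩
    have hper : ∃ i j, i < j ∧ (T q k)^[i] x = (T q k)^[j] x := by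
      by_contra hcon
      push Not at hcon
      obtain ⟨P, hP⟩ : ∃ P : ℕ, P = ⌈Real.log (|(x : ℝ)| + |(k : ℝ)| + 2)⌉₊ ^ 2 := ⟨_, rfl⟩
      obtain ⟨N, hN1, s, M, w, h2, h3, h4, h5⟩ := (frequently_atTop.1 hx) (max N₁ P)
      have h6 := h k hk x N (le_trans (le_max_left _ _) hN1) (fun i j hij _ => hcon i j hij) (by
        apply Real.le_sqrt_of_sq_le
        have e1 : (P : ℝ) ≤ N := by exact_mod_cast le_trans (le_max_right _ _) hN1
        refine le_trans ?_ e1
        rw [hP]
        push_cast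
        apply pow_le_pow_left₀ _ (Nat.le_ceil _)
        apply Real.log_nonneg
        have := abs_nonneg (x : ℝ)
        have := abs_nonneg (k : ℝ)
        linarith) s M h2 w h4 h3
      linarith
    refine ⟨hper, ?_⟩
    intro hdiv
    obtain ⟨i, j, hij, he⟩ := hper
    have h2 : ∀ m, (T q k)^[i + (j - i) * m] x = (T q k)^[i] x := by
      intro m
      induction m with
      | zero => rfl
      | succ m ih =>
        rw [show i + (j - i) * (m + 1) = (j - i) * m + j by
            rw [Nat.mul_succ]; omega, Function.iterate_add_apply, ← he,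
          ← Function.iterate_add_apply, add_comm, ih]
    obtain ⟨N, hN⟩ := Filter.eventually_atTop.1 (hdiv.eventually_gt_atTop |(T q k)^[i] x|)
    have h3 := hN (i + (j - i) * N) (by
      have : N ≤ (j - i) * N := Nat.le_mul_of_pos_left N (by omega)
      omega)
    rw [h2] at h3
    exact absurd h3 (lt_irrefl _)

end Pool.Agent.Results.MP_ff4775_nt.AutomaticComplexity
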