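import Mathlib
import Pool.Agent.X61.CU.Div

set_option autoImplicit false

/-!
# Terms with few nonzero digits on the divergent trajectories of the 3x+1 map

In a divergent trajectory of the `3x+1` map on the integers the odd terms with at most `k` nonzero
digits in base `b` have density zero. The same holds for the sums of at most `k` elements (with
coefficients from a finite set) of a finitely generated group of rational numbers which contains no
number `3 ^ a / 2 ^ b` with `a, b ≥ 1`.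
-/

namespace Pool.Agent.Results.MP_ff4775_nt.FewDigits

open Filter Topology

/-- The 3x+1 map on the integers. -/
def T (x : ℤ) : ℤ := if x % 2 = 0 then x / 2 else (3 * x + 1) / 2

/-- The trajectory of `x` is divergent. -/
def Divergent (x : ℤ) : Prop := Tendsto (fun k : ℕ => |T^[k] x|) atTop atTop

/-- The proportion of the `k < N` such that the term `T^[k] x` has the property `P`. -/
noncomputable def freq (P : ℤ → Prop) (x : ℤ) (N : ℕ) : ℝ := ({k : ℕ | k < N ∧ P (T^[k] x)}.ncard : ℝ) / N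

/-- The integers of the form `c 1 g 1 + ... + c k g k` with `c i ∈ C` and `g i ∈ Γ`. -/
def Sums (Γ : Subgroup ℚˣ) (C : Finset ℚ) (k : ℕ) : Set ℤ :=
  {x | ∃ (c : Fin k → ℚ) (g : Fin k → ℚˣ), (∀ i, c i ∈ C) ∧ (∀ i, g i ∈ Γ) ∧
    (x : ℚ) = ∑ i, c i * (g i : ℚ)}

/-- The number of nonzero digits of `|x|` in base `b`. -/
def nonzeroDigits (b : ℕ) (x : ℤ) : ℕ := ((Nat.digits b x.natAbs).filter fun d => d ≠ 0).length

open Pool.Agent.X61.CU (SumsG div_odd div_all cnt)

theorem freq_eq (P : ℤ → Prop) (x : ℤ) (N : ℕ) : freq P x N = (cnt T P x N : ℝ) / N := by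
  classical
  unfold freq cnt
  rw [← Set.ncard_coe_finset]
  congr 3
  ext k
  simp

theorem freq_mono {P Q : ℤ → Prop} (h : ∀ z, P z → Q z) (x : ℤ) (N : ℕ) : freq P x N ≤ freq Q x N := by
  unfold freq
  refine div_le_div_of_nonneg_right ?_ (Nat.cast_nonneg _)
  have h1 : {k : ℕ | k < N ∧ P (T^[k] x)}.ncard ≤ {k : ℕ | k < N ∧ Q (T^[k] x)}.ncard := by
    refine Set.ncard_le_ncard (fun k hk => ⟨hk.1, h _ hk.2⟩) ?_
    exact (Set.finite_lt_nat N).subset fun k hk => hk.1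
  exact_mod_cast h1

theorem freq_nonneg (P : ℤ → Prop) (x : ℤ) (N : ℕ) : 0 ≤ freq P x N := by
  unfold freq
  positivity

theorem squeeze {P Q : ℤ → Prop} (h : ∀ z, P z → Q z) {x : ℤ}
    (hQ : Tendsto (freq Q x) atTop (𝓝 0)) : Tendsto (freq P x) atTop (𝓝 0) :=
  squeeze_zero (freq_nonneg P x) (freq_mono h x) hQ

/-- a number with few nonzero digits is a short sum -/
theorem list_sum (b : ℕ) (hb : 0 < b) : ∀ (L : List ℕ), (∀ d ∈ L, d < b) → ∀ k : ℕ,
    (L.filter fun d => d ≠ 0).length ≤ k → ∃ c e : Fin k → ℕ, (∀ i, c i < b) ∧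
      Nat.ofDigits b L = ∑ i, c i * b ^ e i := by
  intro L
  induction L with
  | nil =>
    intro _ k _
    refine ⟨fun _ => 0, fun _ => 0, fun _ => hb, ?_⟩
    simp
  | cons d L ih =>
    intro hd k hk
    have hd' : ∀ x ∈ L, x < b := fun x hx => hd x (List.mem_cons_of_mem _ hx)
    by_cases h0 : d = 0
    · rw [List.filter_cons_of_neg (by simp [h0])] at hk
      obtain ⟨c, e, hc, he⟩ := ih hd' k hk
      refine ⟨c, fun i => e i + 1, hc, ?_⟩
      rw [Nat.ofDigits_cons, he, h0, zero_add, Finset.mul_sum]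
      refine Finset.sum_congr rfl fun i _ => ?_
      simp only
      rw [pow_succ]
      ring
    · rw [List.filter_cons_of_pos (by simp [h0]), List.length_cons] at hk
      obtain ⟨k', rfl⟩ : ∃ k', k = k' + 1 := ⟨k - 1, by omega⟩
      obtain ⟨c, e, hc, he⟩ := ih hd' k' (by omega)
      refine ⟨Fin.cons d c, Fin.cons 0 fun i => e i + 1, ?_, ?_⟩
      · intro i
        refine Fin.cases ?_ ?_ i
        · exact hd d List.mem_cons_self
        · intro j
          exact hc j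
      · rw [Nat.ofDigits_cons, he, Fin.sum_univ_succ]
        simp only [Fin.cons_zero, Fin.cons_succ, pow_zero, mul_one]
        rw [Finset.mul_sum]
        congr 1
        refine Finset.sum_congr rfl fun i _ => ?_
        rw [pow_succ]
        ring

/-- the base as a unit -/
noncomputable def base (b : ℕ) (hb : 2 ≤ b) : ℚˣ :=
  Units.mk0 (b : ℚ) (by exact_mod_cast (by omega : b ≠ 0))

/-- the coefficients -/
noncomputable def coeffs (b : ℕ) : Finset ℚ := (Finset.Icc (-(b : ℤ)) b).image fun z : ℤ => (z : ℚ)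

theorem mem_of_digits {b : ℕ} (hb : 2 ≤ b) {k : ℕ} {x : ℤ} (h : nonzeroDigits b x ≤ k) :
    x ∈ SumsG (Subgroup.zpowers (base b hb)) (coeffs b) k := by
  obtain ⟨c, e, hc, he⟩ := list_sum b (by omega) (Nat.digits b x.natAbs)
    (fun d hd => Nat.digits_lt_base (by omega) hd) k h
  rw [Nat.ofDigits_digits] at he
  have hx : (x : ℚ) = (Int.sign x : ℚ) * (x.natAbs : ℚ) := by
    have h1 := Int.sign_mul_natAbs x
    have h2 : ((Int.sign x * (x.natAbs : ℤ) : ℤ) : ℚ) = (x : ℚ) := by rw [h1]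
    rw [Int.cast_mul, Int.cast_natCast] at h2
    exact h2.symm
  refine ⟨fun i => (Int.sign x : ℚ) * c i, fun i => base b hb ^ e i, fun i => ?_, fun i => ?_, ?_⟩
  · refine Finset.mem_image.2 ⟨Int.sign x * c i, ?_, by push_cast; rfl⟩
    have h1 := hc i
    have h2 : (c i : ℤ) < b := by exact_mod_cast h1
    have h3 : (0 : ℤ) ≤ c i := Int.natCast_nonneg _
    rw [Finset.mem_Icc]
    rcases lt_trichotomy x 0 with h | h | h
    · rw [Int.sign_eq_neg_one_of_neg h]
      constructor <;> linarith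
    · rw [h, Int.sign_zero]
      constructor <;> linarith
    · rw [Int.sign_eq_one_of_pos h]
      constructor <;> linarith
  · exact Subgroup.pow_mem _ (Subgroup.mem_zpowers _) _
  · rw [hx, he]
    push_cast
    rw [Finset.mul_sum]
    refine Finset.sum_congr rfl fun i _ => ?_
    simp only [base, Units.val_mk0]
    ring

theorem fg_base (b : ℕ) (hb : 2 ≤ b) : (Subgroup.zpowers (base b hb)).FG :=
  ⟨{base b hb}, by rw [Finset.coe_singleton, Subgroup.zpowers_eq_closure]⟩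

theorem odd_ne {a b c : ℕ} (hb : 1 ≤ b) : c * 2 ^ b ≠ 3 ^ a := by
  intro h
  have h1 : Odd (3 ^ a) := Odd.pow (by decide)
  rw [← h] at h1
  obtain ⟨b', rfl⟩ : ∃ b', b = b' + 1 := ⟨b - 1, by omega⟩
  rw [pow_succ] at h1
  exact (Nat.not_odd_iff_even.2 ⟨c * 2 ^ b', by ring⟩) h1

/-- `3 ^ a / 2 ^ b` as a power of the base -/
theorem base_cases {b : ℕ} (hb : 2 ≤ b) {g : ℚˣ} (hg : g ∈ Subgroup.zpowers (base b hb)) {u v : ℕ}
    (hv : 1 ≤ v) (h : (g : ℚ) = 3 ^ u / 2 ^ v) : ∃ m : ℕ, 1 ≤ m ∧ 3 ^ u * b ^ m = 2 ^ v := by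
  obtain ⟨n, rfl⟩ := Subgroup.mem_zpowers_iff.1 hg
  rw [Units.val_zpow_eq_zpow_val] at h
  simp only [base, Units.val_mk0] at h
  rcases n with n | n
  · exfalso
    rw [Int.ofNat_eq_natCast, zpow_natCast, eq_div_iff (by positivity)] at h
    exact odd_ne (a := u) (c := b ^ n) hv (by exact_mod_cast h)
  · refine ⟨n + 1, by omega, ?_⟩
    have hb0 : (b : ℚ) ≠ 0 := by exact_mod_cast (by omega : b ≠ 0)
    rw [zpow_negSucc, eq_div_iff (by positivity), inv_mul_eq_iff_eq_mul₀ (by positivity)] at h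
    have h1 : ((2 ^ v : ℕ) : ℚ) = ((b ^ (n + 1) * 3 ^ u : ℕ) : ℚ) := by
      push_cast
      exact h
    have h2 : 2 ^ v = b ^ (n + 1) * 3 ^ u := by exact_mod_cast h1
    rw [h2]
    ring

/-- Let the trajectory of `x` under the `3x+1` map on the integers be divergent and let `k ≥ 0`. Let
`Γ` be a finitely generated group of nonzero rational numbers and `C` a finite set of rational numbers.
(1) If `Γ` contains no number `3 ^ u / 2 ^ v` with `u, v ≥ 1`, then the odd terms of the form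
`c 1 g 1 + ... + c k g k`, `c i ∈ C`, `g i ∈ Γ`, have density zero in the trajectory.
(2) If `Γ` contains no number `3 ^ u / 2 ^ v` with `u ≥ 0`, `v ≥ 1`, then all terms of this form have
density zero.
(3) For every base `b ≥ 2` the odd terms with at most `k` nonzero digits in base `b` have density zero.
(4) If `b` is not a power of two, then all terms with at most `k` nonzero digits in base `b` have
density zero. -/
theorem result (x : ℤ) (hx : Divergent x) (k : ℕ) :
    (∀ (Γ : Subgroup ℚˣ) (C : Finset ℚ), Γ.FG →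
      (∀ g ∈ Γ, ∀ u v : ℕ, 1 ≤ u → 1 ≤ v → (g : ℚ) ≠ 3 ^ u / 2 ^ v) →
      Tendsto (freq (fun z => z % 2 = 1 ∧ z ∈ Sums Γ C k) x) atTop (𝓝 0)) ∧
    (∀ (Γ : Subgroup ℚˣ) (C : Finset ℚ), Γ.FG →
      (∀ g ∈ Γ, ∀ u v : ℕ, 1 ≤ v → (g : ℚ) ≠ 3 ^ u / 2 ^ v) →
      Tendsto (freq (fun z => z ∈ Sums Γ C k) x) atTop (𝓝 0)) ∧
    (∀ b : ℕ, 2 ≤ b →
      Tendsto (freq (fun z => z % 2 = 1 ∧ nonzeroDigits b z ≤ k) x) atTop (𝓝 0)) ∧
    (∀ b : ℕ, 2 ≤ b → (∀ n : ℕ, b ≠ 2 ^ n) →
      Tendsto (freq (fun z => nonzeroDigits b z ≤ k) x) atTop (𝓝 0)) := by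
  have h1 : ∀ (Γ : Subgroup ℚˣ) (C : Finset ℚ), Γ.FG →
      (∀ g ∈ Γ, ∀ u v : ℕ, 1 ≤ u → 1 ≤ v → (g : ℚ) ≠ 3 ^ u / 2 ^ v) →
      Tendsto (freq (fun z => z % 2 = 1 ∧ z ∈ SumsG Γ C k) x) atTop (𝓝 0) := by
    intro Γ C hfg hΓ
    refine (div_odd Γ hfg hΓ C k x hx).congr fun N => ?_
    exact (freq_eq _ x N).symm
  have h2 : ∀ (Γ : Subgroup ℚˣ) (C : Finset ℚ), Γ.FG →
      (∀ g ∈ Γ, ∀ u v : ℕ, 1 ≤ v → (g : ℚ) ≠ 3 ^ u / 2 ^ v) →
      Tendsto (freq (fun z => z ∈ SumsG Γ C k) x) atTop (𝓝 0) := by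
    intro Γ C hfg hΓ
    refine (div_all Γ hfg hΓ C k x hx).congr fun N => ?_
    exact (freq_eq _ x N).symm
  refine ⟨h1, h2, fun b hb => ?_, fun b hb hb2 => ?_⟩
  · refine squeeze (fun z hz => ⟨hz.1, mem_of_digits hb hz.2⟩)
      (h1 _ (coeffs b) (fg_base b hb) ?_)
    intro g hg u v hu hv h
    obtain ⟨m, hm, h3⟩ := base_cases hb hg hv h
    have h4 : 3 ∣ 2 ^ v := by
      rw [← h3]
      exact Dvd.dvd.mul_right (dvd_pow_self 3 (by omega)) _
    have := Nat.prime_three.dvd_of_dvd_pow h4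
    omega
  · refine squeeze (fun z hz => mem_of_digits hb hz) (h2 _ (coeffs b) (fg_base b hb) ?_)
    intro g hg u v hv h
    obtain ⟨m, hm, h3⟩ := base_cases hb hg hv h
    have h4 : b ∣ 2 ^ v := by
      rw [← h3]
      exact Dvd.dvd.mul_left (dvd_pow_self b (by omega)) _
    obtain ⟨n, _, hn⟩ := (Nat.dvd_prime_pow Nat.prime_two).1 h4
    exact hb2 n hn

end Pool.Agent.Results.MP_ff4775_nt.FewDigits
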