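import Mathlib
import Pool.Agent.X61.RT.LightRel

/-!
# The primes of the terms of divergent trajectories of the 3x+1 map

For a finite set `P` of primes the `P`-free part of an integer is its largest divisor without prime
factors in `P`. For `κ < 1/2` at most `C ^ (|P| + 1)` odd integers `n` are such that the product of the
`P`-free parts of `n` and `T (n)` is at most `|n| ^ κ`. For `κ < 1/4` there are `c`, `C > 0` such that
for all divergent trajectories, all `N ≥ 2` and all sets `P` of at most `c log N` primes at most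
`C N / log N` of the first `N` terms are odd with a `P`-free part at most `|n| ^ κ`.
-/

set_option autoImplicit false

namespace Pool.Agent.Results.MP_ff4775_nt.FewPrimes

open Finset Filter

/-- The `3x+1` map on the integers. -/
def T (n : ℤ) : ℤ := if n % 2 = 0 then n / 2 else (3 * n + 1) / 2

/-- The trajectory of `n` is divergent: `|T^k n|` tends to infinity. -/
def Divergent (n : ℤ) : Prop := Tendsto (fun k => |T^[k] n|) atTop atTop

/-- The `P`-free part of `n`: the product of the powers of the primes not in `P` dividing `n`. -/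
def outside (P : Finset ℕ) (n : ℤ) : ℕ :=
  ∏ p ∈ n.natAbs.primeFactors \ P, p ^ n.natAbs.factorization p

lemma outside_eq (P : Finset ℕ) (n : ℤ) : outside P n = Pool.Agent.X61.RT.free P n.natAbs := rfl

lemma outside_pos (P : Finset ℕ) (n : ℤ) : (0 : ℝ) < outside P n := by
  exact_mod_cast Pool.Agent.X61.RT.free_pos P n.natAbs

/-- a divergent trajectory has no repetition -/
lemma no_rep {x : ℤ} (h : Divergent x) : ∀ i j : ℕ, T^[i] x = T^[j] x → i = j := by
  have key : ∀ i r : ℕ, 1 ≤ r → T^[i + r] x ≠ T^[i] x := by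
    intro i r hr h1
    have h2 : ∀ N, T^[i + r * N] x = T^[i] x := by
      intro N
      induction N with
      | zero => rfl
      | succ N ih =>
        rw [show i + r * (N + 1) = r * N + (i + r) by ring, Function.iterate_add_apply, h1,
          ← Function.iterate_add_apply, add_comm, ih]
    obtain ⟨N, hN⟩ := Filter.eventually_atTop.1 (h.eventually_gt_atTop |T^[i] x|)
    have h3 := hN (i + r * N) (by nlinarith)
    rw [h2] at h3
    exact lt_irrefl _ h3
  intro i j he
  rcases lt_trichotomy i j with h1 | h1 | h1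
  · exact absurd (by rw [show i + (j - i) = j by omega]; exact he.symm) (key i (j - i) (by omega))
  · exact h1
  · exact absurd (by rw [show j + (i - j) = i by omega]; exact he) (key j (i - j) (by omega))

/-- odd integers -/
lemma part_one (κ : ℝ) (hκ0 : 0 ≤ κ) (hκ : κ < 1 / 2) : ∃ C : ℝ, 1 ≤ C ∧ ∀ P : Finset ℕ,
    {n : ℤ | n % 2 = 1 ∧ (outside P n : ℝ) * outside P (T n) ≤ |(n : ℝ)| ^ κ}.Finite ∧
    ({n : ℤ | n % 2 = 1 ∧ (outside P n : ℝ) * outside P (T n) ≤ |(n : ℝ)| ^ κ}.ncard : ℝ) ≤
      C ^ (P.card + 1) := by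
  classical
  obtain ⟨C, hC1, hC⟩ := Pool.Agent.X61.RT.light_int κ hκ
  refine ⟨C ^ 3, one_le_pow₀ hC1, ?_⟩
  intro P
  set A : Set ℤ := {n : ℤ | n % 2 = 1 ∧ (outside P n : ℝ) * outside P (T n) ≤ |(n : ℝ)| ^ κ} with hA
  have key : ∀ F : Finset ℤ, (F : Set ℤ) ⊆ A → (F.card : ℝ) ≤ (C ^ 3) ^ (P.card + 1) := by
    intro F hF
    set P' : Finset ℕ := P ∪ {2, 3} with hP'
    have hcard : P'.card ≤ P.card + 2 := (Finset.card_union_le _ _).trans (by
      have : ({2, 3} : Finset ℕ).card ≤ 2 := Finset.card_le_two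
      omega)
    have h1 := hC P' (F.image fun n => (3 * n, 1)) (by
      intro s hs
      obtain ⟨n, hn, rfl⟩ := Finset.mem_image.1 hs
      obtain ⟨hodd, hle⟩ := hF (Finset.mem_coe.2 hn)
      have hn0 : n ≠ 0 := by intro h; rw [h] at hodd; omega
      have hT : 3 * n + 1 = 2 * T n := by
        unfold T
        rw [if_neg (by omega)]
        omega
      have hT0 : T n ≠ 0 := by intro h; rw [h] at hT; omega
      refine ⟨isCoprime_one_right, by omega, one_ne_zero, by omega, ?_⟩
      have f1 : Pool.Agent.X61.RT.free P' (3 * n).natAbs ≤ outside P n := by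
        rw [Int.natAbs_mul, Pool.Agent.X61.RT.free_mul P' (by norm_num)
          (Int.natAbs_ne_zero.2 hn0), Pool.Agent.X61.RT.free_eq_one, one_mul]
        · exact Pool.Agent.X61.RT.free_anti Finset.subset_union_left _
        · intro p hp
          have h3 : ((3 : ℤ).natAbs).primeFactors = {3} := Nat.Prime.primeFactors Nat.prime_three
          rw [h3, Finset.mem_singleton] at hp
          rw [hP', hp]
          simp
      have f2 : Pool.Agent.X61.RT.free P' (1 : ℤ).natAbs = 1 := by
        apply Pool.Agent.X61.RT.free_eq_one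
        simp
      have f3 : Pool.Agent.X61.RT.free P' (3 * n + 1).natAbs ≤ outside P (T n) := by
        rw [hT, Int.natAbs_mul, Pool.Agent.X61.RT.free_mul P' (by norm_num)
          (Int.natAbs_ne_zero.2 hT0), Pool.Agent.X61.RT.free_eq_one, one_mul]
        · exact Pool.Agent.X61.RT.free_anti Finset.subset_union_left _
        · intro p hp
          have h3 : ((2 : ℤ).natAbs).primeFactors = {2} := Nat.Prime.primeFactors Nat.prime_two
          rw [h3, Finset.mem_singleton] at hp
          rw [hP', hp]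
          simp
      have l1 : Real.log (Pool.Agent.X61.RT.free P' (3 * n).natAbs) ≤ Real.log (outside P n) :=
        Real.log_le_log (by exact_mod_cast Pool.Agent.X61.RT.free_pos P' _) (by exact_mod_cast f1)
      have l3 : Real.log (Pool.Agent.X61.RT.free P' (3 * n + 1).natAbs) ≤
          Real.log (outside P (T n)) :=
        Real.log_le_log (by exact_mod_cast Pool.Agent.X61.RT.free_pos P' _) (by exact_mod_cast f3)
      have hnr : 0 < |(n : ℝ)| := abs_pos.2 (by exact_mod_cast hn0)
      have l4 : Real.log (outside P n) + Real.log (outside P (T n)) ≤ κ * Real.log |(n : ℝ)| := by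
        rw [← Real.log_mul (outside_pos P n).ne' (outside_pos P _).ne', ← Real.log_rpow hnr]
        exact Real.log_le_log (mul_pos (outside_pos P n) (outside_pos P _)) hle
      have l5 : Real.log |(n : ℝ)| ≤ Real.log (max |((3 * n : ℤ) : ℝ)| (max |((1 : ℤ) : ℝ)|
          |((3 * n + 1 : ℤ) : ℝ)|)) := by
        refine Real.log_le_log hnr (le_trans ?_ (le_max_left _ _))
        push_cast
        rw [abs_mul]
        norm_num
        linarith
      have l6 := mul_le_mul_of_nonneg_left l5 hκ0
      dsimp only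
      rw [f2, Nat.cast_one, Real.log_one, add_zero]
      linarith)
    rw [Finset.card_image_of_injective _ (by
      intro a b h
      have := congrArg Prod.fst h
      simpa using this)] at h1
    refine h1.trans ?_
    rw [← pow_mul]
    exact pow_le_pow_right₀ hC1 (by omega)
  have hfin : A.Finite := by
    by_contra hinf
    obtain ⟨M, hM⟩ := exists_nat_gt ((C ^ 3) ^ (P.card + 1))
    obtain ⟨F, hF1, hF2⟩ := Set.Infinite.exists_subset_card_eq hinf M
    have := key F hF1
    rw [hF2] at this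
    linarith
  refine ⟨hfin, ?_⟩
  rw [Set.ncard_eq_toFinset_card A hfin]
  exact key _ (by rw [Set.Finite.coe_toFinset])

/-- orbits -/
lemma part_two (κ : ℝ) (hκ0 : 0 ≤ κ) (hκ : κ < 1 / 4) : ∃ c C : ℝ, 0 < c ∧ 0 < C ∧
    ∀ (n : ℤ) (N : ℕ), 2 ≤ N → (∀ i < N, ∀ j < N, T^[i] n = T^[j] n → i = j) →
      ∀ P : Finset ℕ, (P.card : ℝ) ≤ c * Real.log N →
        (((range N).filter fun i => T^[i] n % 2 = 1 ∧
          (outside P (T^[i] n) : ℝ) ≤ |(T^[i] n : ℝ)| ^ κ).card : ℝ) ≤ C * (N / Real.log N) := by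
  classical
  obtain ⟨c, C, hc, hC, hmain⟩ := Pool.Agent.X61.RT.light_rare κ hκ0 hκ 5 (by norm_num)
  refine ⟨c, C, hc, hC, ?_⟩
  intro n N hN hinj P hP
  have hT : T = Pool.Agent.X61.RT.Ta 3 1 := rfl
  have hN1 : (1 : ℝ) ≤ N := by exact_mod_cast (by omega : 1 ≤ N)
  have hit : ∀ i j : ℕ, (fun i : ℕ => i + 1)^[j] i = i + j := by
    intro i j
    induction j with
    | zero => rfl
    | succ j ih => rw [Function.iterate_succ_apply', ih]; rfl
  refine hmain (fun i : ℕ => i + 1) (fun i => T^[i] n) Set.univ 1 N _ P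
    (Set.mapsTo_univ _ _) (fun i _ j _ h => by simpa using h) one_ne_zero hN
    (fun _ _ => Set.mem_univ _) ?_ ?_ ?_ ?_ ?_ ?_
  · intro i hi
    obtain ⟨-, h2, h3⟩ := Finset.mem_filter.1 hi
    have hn0 : T^[i] n ≠ 0 := by intro h; rw [h] at h2; omega
    refine ⟨hn0, ?_⟩
    rw [← outside_eq]
    have hnr : 0 < |(T^[i] n : ℝ)| := abs_pos.2 (by exact_mod_cast hn0)
    rw [← Real.log_rpow hnr]
    exact Real.log_le_log (outside_pos P _) h3
  · intro i hi j hj h
    exact hinj i (Finset.mem_range.1 (Finset.mem_filter.1 hi).1) j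
      (Finset.mem_range.1 (Finset.mem_filter.1 hj).1) h
  · intro i hi j hj1 hj2
    obtain ⟨-, h2, -⟩ := Finset.mem_filter.1 hi
    obtain ⟨A, B, E, g1, g2, g3, g4, g5, g6, g7⟩ := Pool.Agent.X61.RT.Ta_rel (a := 3)
      (k := 1) rfl rfl (by norm_num) (x := T^[i] n) (by omega) 5 (by norm_num) hj1
    refine ⟨A, B, E, g1, g2, g3, g4, g5, g6, ?_⟩
    rw [g7, hit, add_comm i j, Function.iterate_add_apply, hT]
  · intro J
    refine ⟨range (N + J), by rw [card_range], ?_⟩
    intro i hi j hj
    rw [hit, Finset.mem_range]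
    have := Finset.mem_range.1 (Finset.mem_filter.1 hi).1
    omega
  · simpa using hP
  · rw [Int.cast_one, abs_one]
    exact Real.one_le_rpow hN1 hc.le

/-- **Result.**

(1) For every `κ ∈ [0, 1/2)` there is `C` such that for every finite set `P` of primes at most
`C ^ (|P| + 1)` odd integers `n` are such that the product of the `P`-free parts of `n` and `T n` is at
most `|n| ^ κ`.

(2) For every `κ ∈ [0, 1/4)` there are `c`, `C > 0` such that for every integer `n` with divergent
trajectory, every `N ≥ 2` and every set `P` of at most `c log N` primes, at most `C N / log N` of the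
`i < N` are such that `T^i (n)` is odd with a `P`-free part at most `|T^i (n)| ^ κ`.

(3) The same for all integers `n` and all `N ≥ 2` for which the first `N` terms are different. -/
theorem result :
    (∀ κ : ℝ, 0 ≤ κ → κ < 1 / 2 → ∃ C : ℝ, 1 ≤ C ∧ ∀ P : Finset ℕ,
      {n : ℤ | n % 2 = 1 ∧ (outside P n : ℝ) * outside P (T n) ≤ |(n : ℝ)| ^ κ}.Finite ∧
      ({n : ℤ | n % 2 = 1 ∧ (outside P n : ℝ) * outside P (T n) ≤ |(n : ℝ)| ^ κ}.ncard : ℝ) ≤
        C ^ (P.card + 1)) ∧
    (∀ κ : ℝ, 0 ≤ κ → κ < 1 / 4 → ∃ c C : ℝ, 0 < c ∧ 0 < C ∧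
      (∀ n : ℤ, Divergent n → ∀ N : ℕ, 2 ≤ N → ∀ P : Finset ℕ, (P.card : ℝ) ≤ c * Real.log N →
        (((range N).filter fun i => T^[i] n % 2 = 1 ∧
          (outside P (T^[i] n) : ℝ) ≤ |(T^[i] n : ℝ)| ^ κ).card : ℝ) ≤ C * (N / Real.log N)) ∧
      (∀ (n : ℤ) (N : ℕ), 2 ≤ N → (∀ i < N, ∀ j < N, T^[i] n = T^[j] n → i = j) →
        ∀ P : Finset ℕ, (P.card : ℝ) ≤ c * Real.log N →
        (((range N).filter fun i => T^[i] n % 2 = 1 ∧
          (outside P (T^[i] n) : ℝ) ≤ |(T^[i] n : ℝ)| ^ κ).card : ℝ) ≤ C * (N / Real.log N))) := by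
  refine ⟨part_one, ?_⟩
  intro κ hκ0 hκ
  obtain ⟨c, C, hc, hC, h⟩ := part_two κ hκ0 hκ
  exact ⟨c, C, hc, hC, fun n hn N hN P hP => h n N hN (fun i _ j _ he => no_rep hn i j he) P hP, h⟩

end Pool.Agent.Results.MP_ff4775_nt.FewPrimes
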