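import Mathlib
import Pool.Agent.X61.CU.Div

set_option autoImplicit false

/-!
# The smooth part of the terms of a divergent trajectory of the 3x+1 map

Let `S` be a finite set of primes and `ε > 0`. In a divergent trajectory of the `3x+1` map on the
integers the part composed of primes in `S` of the product of the odd terms among the first `N` terms is
at most the `ε`-th power of the product of the first `N` terms, for all large `N`. If the rational
number `r` is not fixed by any nonempty composition of the two branches, the same holds for the product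
of the numbers `den(r) x - num(r)` over the first `N` terms `x`.
-/

namespace Pool.Agent.Results.MP_ff4775_nt.SmoothPartOfTerms

open Filter Topology

/-- The 3x+1 map on the integers. -/
def T (x : ℤ) : ℤ := if x % 2 = 0 then x / 2 else (3 * x + 1) / 2

/-- The trajectory of `x` is divergent. -/
def Divergent (x : ℤ) : Prop := Tendsto (fun k : ℕ => |T^[k] x|) atTop atTop

/-- The largest divisor of the nonzero integer `n` all of whose prime factors are in `S`; the value
is `1` for `n = 0`. -/
def smoothPart (S : Finset ℕ) (n : ℤ) : ℕ := ∏ p ∈ S, p ^ padicValNat p n.natAbs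

/-- The two branches `z / 2` and `(3 z + 1) / 2` of the 3x+1 map, on the rational numbers. -/
def branch (z : ℚ) (odd : Bool) : ℚ := if odd then (3 * z + 1) / 2 else z / 2

open Pool.Agent.X61.CU (sum_div part_pos spart_odd_w spart_shift_w)

theorem part_ge {S : Finset ℕ} (hS : ∀ p ∈ S, p.Prime) (n : ℤ) : (1 : ℝ) ≤ smoothPart S n := by
  exact_mod_cast part_pos hS n

theorem ne_zero {x : ℤ} (hx : Divergent x) (k : ℕ) : T^[k] x ≠ 0 := by
  intro h0
  have h1 : T^[k + 1] x = T^[k] x := by
    rw [Function.iterate_succ_apply', h0]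
    rfl
  have := Pool.Agent.X61.CU.inj_of_tendsto hx _ _ h1
  omega

theorem abs_pos' {x : ℤ} (hx : Divergent x) (k : ℕ) : (0 : ℝ) < |(T^[k] x : ℝ)| :=
  abs_pos.2 (by exact_mod_cast ne_zero hx k)

theorem of_log {x : ℤ} (hx : Divergent x) {ε a : ℝ} {N : ℕ} (ha : 0 < a)
    (h : Real.log a ≤ ε * ∑ k ∈ Finset.range N, Real.log |(T^[k] x : ℝ)|) :
    a ≤ (∏ k ∈ Finset.range N, |(T^[k] x : ℝ)|) ^ ε := by
  have hP : 0 < ∏ k ∈ Finset.range N, |(T^[k] x : ℝ)| := Finset.prod_pos fun k _ => abs_pos' hx k
  rw [← Real.log_le_log_iff ha (by positivity), Real.log_rpow hP,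
    Real.log_prod fun k _ => (abs_pos' hx k).ne']
  exact h

/-- **Theorem.** Let the trajectory of `x` under the `3x+1` map on the integers be divergent, let `S` be
a finite set of primes and `ε > 0`.

(1) For all large `N` the part composed of primes in `S` of the product of the odd terms `T^[k] x`,
`k < N`, is at most `(∏ k < N, |T^[k] x|) ^ ε`.

(2) Let `r` be a rational number which is not fixed by any nonempty composition of the two branches.
For all large `N` the part composed of primes in `S` of the product of the integers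
`r.den * T^[k] x - r.num`, `k < N`, is at most `(∏ k < N, |T^[k] x|) ^ ε`. -/
theorem result (x : ℤ) (hx : Divergent x) (S : Finset ℕ) (hS : ∀ p ∈ S, p.Prime) (ε : ℝ)
    (hε : 0 < ε) :
    (∀ᶠ N : ℕ in atTop,
      ∏ k ∈ (Finset.range N).filter (fun k => T^[k] x % 2 = 1), (smoothPart S (T^[k] x) : ℝ) ≤
        (∏ k ∈ Finset.range N, |(T^[k] x : ℝ)|) ^ ε) ∧
    ∀ r : ℚ, (∀ w : List Bool, w ≠ [] → w.foldl branch r ≠ r) →
      ∀ᶠ N : ℕ in atTop, ∏ k ∈ Finset.range N, (smoothPart S (r.den * T^[k] x - r.num) : ℝ) ≤
        (∏ k ∈ Finset.range N, |(T^[k] x : ℝ)|) ^ ε := by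
  constructor
  · have h := sum_div (h := fun z => if z % 2 = 0 then 0 else Real.log (smoothPart S z)) (fun z => by
      split_ifs
      · exact le_rfl
      · exact Real.log_nonneg (part_ge hS z)) (spart_odd_w S hS) ε hε x hx
    filter_upwards [h] with N hN
    refine of_log hx (Finset.prod_pos fun k _ => lt_of_lt_of_le one_pos (part_ge hS _)) ?_
    refine le_of_eq_of_le ?_ hN
    rw [Real.log_prod fun k _ => (lt_of_lt_of_le one_pos (part_ge hS _)).ne', Finset.sum_filter]
    refine Finset.sum_congr rfl fun k _ => ?_
    show _ = if T^[k] x % 2 = 0 then 0 else Real.log (smoothPart S (T^[k] x))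
    rcases Int.emod_two_eq_zero_or_one (T^[k] x) with h1 | h1
    · rw [if_neg (by omega), if_pos h1]
    · rw [if_pos h1, if_neg (by omega)]
  · intro r hr
    have hq : (r.den : ℤ) ≠ 0 := by exact_mod_cast r.den_nz
    have hrr : ((r.num : ℤ) : ℚ) / ((r.den : ℤ) : ℚ) = r := by
      rw [Int.cast_natCast]
      exact Rat.num_div_den r
    have h := sum_div (h := fun z => Real.log (smoothPart S (r.den * z - r.num)))
      (fun z => Real.log_nonneg (part_ge hS _))
      (spart_shift_w S hS r.num r.den hq (by
        intro w hw
        rw [hrr]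
        exact hr w hw)) ε hε x hx
    filter_upwards [h] with N hN
    refine of_log hx (Finset.prod_pos fun k _ => lt_of_lt_of_le one_pos (part_ge hS _)) ?_
    refine le_of_eq_of_le ?_ hN
    rw [Real.log_prod fun k _ => (lt_of_lt_of_le one_pos (part_ge hS _)).ne']
    rfl

end Pool.Agent.Results.MP_ff4775_nt.SmoothPartOfTerms
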